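import Pool.Agent.Lib.MP_537c9d_co.Final

/-!
In every weakly consecutive sequence the term 1 is the first or the last term.
-/

namespace Pool.Agent.Results.MP_537c9d_co.OneAtEnd

open Pool.Agent.Lib.MP_537c9d_co

theorem result (k : ℕ) (hk : 1 ≤ k) (σ : ℕ → ℕ)
    (hσ : Set.BijOn σ (Set.Icc 1 k) (Set.Icc 1 k))
    (hw : ∀ m ∈ Set.Icc 1 k, ∀ i ∈ Set.Icc 1 k, ∀ j ∈ Set.Icc 1 k,
      m ∣ σ i → (m : ℤ) ∣ (i : ℤ) - (j : ℤ) → m ∣ σ j) :
    σ 1 = 1 ∨ σ k = 1 := by
  classical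
  -- at most `k / a` positions carry a multiple of `a`
  have hcount : ∀ (a : ℕ), 1 ≤ a → ∀ S : Finset ℕ, (∀ i ∈ S, 1 ≤ i ∧ i ≤ k ∧ a ∣ σ i) →
      S.card ≤ k / a := by
    intro a ha S hS
    have h1 : S.card ≤ (Finset.Icc 1 (k / a)).card := by
      refine Finset.card_le_card_of_injOn (fun i => σ i / a) (fun i hi => ?_) ?_
      · obtain ⟨h1, h2, c, hc⟩ := hS i hi
        have h3 := hσ.mapsTo (show i ∈ Set.Icc 1 k from ⟨h1, h2⟩)
        simp only [Finset.coe_Icc, Set.mem_Icc] at h3 ⊢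
        refine ⟨?_, Nat.div_le_div_right h3.2⟩
        rw [Nat.le_div_iff_mul_le ha, one_mul]
        exact Nat.le_of_dvd h3.1 ⟨c, hc⟩
      · intro i hi j hj hij
        obtain ⟨h1, h2, h3⟩ := hS i hi
        obtain ⟨h1', h2', h3'⟩ := hS j hj
        refine hσ.injOn ⟨h1, h2⟩ ⟨h1', h2'⟩ ?_
        rw [← Nat.div_mul_cancel h3, ← Nat.div_mul_cancel h3']
        exact congrArg (· * a) hij
    simpa using h1
  -- positions
  have hpos : ∀ n, ∃ i, 1 ≤ n → n ≤ k → 1 ≤ i ∧ i ≤ k ∧ σ i = n := by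
    intro n
    by_cases hn : 1 ≤ n ∧ n ≤ k
    · obtain ⟨i, hi, hi'⟩ := hσ.surjOn (show n ∈ Set.Icc 1 k from hn)
      exact ⟨i, fun _ _ => ⟨hi.1, hi.2, hi'⟩⟩
    · exact ⟨0, fun h1 h2 => absurd ⟨h1, h2⟩ hn⟩
  choose π hπ using hpos
  -- the shift `x`
  obtain ⟨x, hx⟩ := Nat.chineseRemainderOfFinset
    (fun p => (p ^ Nat.log p k - 1) * π (p ^ Nat.log p k)) (fun p => p ^ Nat.log p k)
    ((Finset.range (k + 1)).filter Nat.Prime)
    (fun p hp => (Nat.pow_pos (Finset.mem_filter.1 hp).2.pos).ne')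
    (fun p hp q hq hpq => by
      have hp' := (Finset.mem_filter.1 hp).2
      have hq' := (Finset.mem_filter.1 hq).2
      exact Nat.Coprime.pow _ _ ((Nat.coprime_primes hp' hq').2 hpq))
  have hxa : ∀ a, a ∣ L k → ∀ i, 1 ≤ i → i ≤ k → a ∣ x + i → a ∣ σ i := by
    intro a ha i hi1 hi2 hai
    rw [Nat.dvd_iff_prime_pow_dvd_dvd]
    intro p e hp hpe
    rcases Nat.eq_zero_or_pos e with rfl | he
    · simp
    have hle : p ^ e ≤ k := le_of_pow_dvd_L hp he (hpe.trans ha)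
    have hpk : p ≤ k := (Nat.le_self_pow (by omega) p).trans hle
    have hlog : e ≤ Nat.log p k := Nat.le_log_of_pow_le hp.one_lt hle
    have hq1 : 1 ≤ p ^ Nat.log p k := Nat.pow_pos hp.pos
    have hqk : p ^ Nat.log p k ≤ k := Nat.pow_log_le_self p (by omega)
    obtain ⟨h1, h2, h3⟩ := hπ _ hq1 hqk
    have hd : p ^ e ∣ p ^ Nat.log p k := pow_dvd_pow p hlog
    have h4 := hx p (Finset.mem_filter.2 ⟨Finset.mem_range.2 (by omega), hp⟩)
    have h5 : p ^ Nat.log p k ∣ x + π (p ^ Nat.log p k) := by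
      rw [← Nat.modEq_zero_iff_dvd]
      refine (h4.add_right _).trans ?_
      rw [Nat.modEq_zero_iff_dvd]
      refine ⟨π (p ^ Nat.log p k), ?_⟩
      obtain ⟨c, hc⟩ : ∃ c, p ^ Nat.log p k = c + 1 := ⟨p ^ Nat.log p k - 1, by omega⟩
      generalize π (p ^ Nat.log p k) = w
      rw [hc, Nat.add_sub_cancel]; ring
    refine hw (p ^ e) ⟨Nat.pow_pos hp.pos, hle⟩ _ ⟨h1, h2⟩ i ⟨hi1, hi2⟩ (by rw [h3]; exact hd) ?_
    have h6 : ((p ^ e : ℕ) : ℤ) ∣ ((x + π (p ^ Nat.log p k) : ℕ) : ℤ) :=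
      Int.natCast_dvd_natCast.2 (hd.trans h5)
    have h7 : ((p ^ e : ℕ) : ℤ) ∣ ((x + i : ℕ) : ℤ) := Int.natCast_dvd_natCast.2 (hpe.trans hai)
    have h8 := dvd_sub h6 h7
    have e1 : ((x + π (p ^ Nat.log p k) : ℕ) : ℤ) - ((x + i : ℕ) : ℤ) =
        (π (p ^ Nat.log p k) : ℤ) - (i : ℤ) := by push_cast; ring
    rwa [e1] at h8
  have hinj : ∀ a r : ℕ, 1 ≤ a → Function.Injective (fun j : ℕ => r + j * a) := by
    intro a r ha i j hij
    exact Nat.eq_of_mul_eq_mul_right ha (Nat.add_left_cancel hij)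
  -- no carries
  have hnc : ∀ a, a ∣ L k → x % a + k % a < a := by
    intro a ha
    have ha1 : 1 ≤ a := Nat.pos_of_dvd_of_pos ha (L_pos k)
    by_contra hcon
    have hr := Nat.mod_lt x ha1
    have := hcount a ha1 ((Finset.range (k / a + 1)).image fun j => a - x % a + j * a) (by
      intro i hi
      obtain ⟨j, hj, rfl⟩ := Finset.mem_image.1 hi
      have h1 : j * a ≤ k / a * a :=
        Nat.mul_le_mul_right _ (Nat.lt_succ_iff.1 (Finset.mem_range.1 hj))
      have h2 := Nat.div_add_mod' k a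
      have h3 : 1 ≤ a - x % a + j * a := by omega
      have h4 : a - x % a + j * a ≤ k := by omega
      exact ⟨h3, h4, hxa a ha _ h3 h4 (dvd_first x a ha1 j)⟩)
    rw [Finset.card_image_of_injective _ (hinj a _ ha1), Finset.card_range] at this
    omega
  -- converse for primes
  have hconv : ∀ a, a ∣ L k → ∀ i, 1 ≤ i → i ≤ k → a ∣ σ i → a ∣ x + i := by
    intro a ha i hi1 hi2 hai
    have ha1 : 1 ≤ a := Nat.pos_of_dvd_of_pos ha (L_pos k)
    by_contra hcon
    have hr := Nat.mod_lt x ha1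
    have := hcount a ha1
      (insert i ((Finset.range (k / a)).image fun j => a - x % a + j * a)) (by
      intro i' hi'
      rcases Finset.mem_insert.1 hi' with rfl | hi'
      · exact ⟨hi1, hi2, hai⟩
      obtain ⟨j, hj, rfl⟩ := Finset.mem_image.1 hi'
      have h1 : (j + 1) * a ≤ k := (Nat.le_div_iff_mul_le ha1).1 (Finset.mem_range.1 hj)
      have h2 : (j + 1) * a = j * a + a := by ring
      have h3 : 1 ≤ a - x % a + j * a := by omega
      have h4 : a - x % a + j * a ≤ k := by omega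
      exact ⟨h3, h4, hxa a ha _ h3 h4 (dvd_first x a ha1 j)⟩)
    rw [Finset.card_insert_of_notMem, Finset.card_image_of_injective _ (hinj a _ ha1),
      Finset.card_range] at this
    · omega
    · intro hi'
      obtain ⟨j, -, rfl⟩ := Finset.mem_image.1 hi'
      exact hcon (dvd_first x a ha1 j)
  -- the mirror shift `y`
  obtain ⟨y, hy⟩ : ∃ y, L k ∣ x + y + k + 1 := by
    refine ⟨(L k - 1) * (x + k + 1), x + k + 1, ?_⟩
    obtain ⟨c, hc⟩ : ∃ c, L k = c + 1 := ⟨L k - 1, by have := L_pos k; omega⟩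
    rw [hc, Nat.add_sub_cancel]; ring
  have hR : R k x y := by
    intro a ha
    have ha1 : 1 ≤ a := Nat.pos_of_dvd_of_pos ha (L_pos k)
    have h1 := hnc a ha
    have h2 : a ∣ y + (x % a + k % a + 1) := by
      have h3 : y + (x % a + k % a + 1) ≡ y + (x + k + 1) [MOD a] :=
        (((Nat.mod_modEq x a).add (Nat.mod_modEq k a)).add_right 1).add_left y
      rw [← Nat.modEq_zero_iff_dvd]
      refine h3.trans (Nat.modEq_zero_iff_dvd.2 ?_)
      have e1 : y + (x + k + 1) = x + y + k + 1 := by ring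
      rw [e1]; exact ha.trans hy
    have := mod_of_dvd_add (by omega) (by omega) h2
    omega
  have h1 := hσ.mapsTo (show 1 ∈ Set.Icc 1 k from ⟨le_rfl, hk⟩)
  have h2 := hσ.mapsTo (show k ∈ Set.Icc 1 k from ⟨hk, le_rfl⟩)
  have hL1 : σ 1 ∣ L k := dvd_L h1.1 h1.2
  have hLk : σ k ∣ L k := dvd_L h2.1 h2.2
  rcases gcd_end hR with h | h
  · left
    have := Nat.dvd_gcd (hconv _ hL1 1 le_rfl hk dvd_rfl) hL1
    rw [h] at this
    exact Nat.dvd_one.1 this
  · right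
    have h3 := hconv _ hLk k hk le_rfl dvd_rfl
    have h4 : σ k ∣ (x + k) + (y + 1) := by
      have e1 : (x + k) + (y + 1) = x + y + k + 1 := by ring
      rw [e1]; exact hLk.trans hy
    have := Nat.dvd_gcd ((Nat.dvd_add_right h3).1 h4) hLk
    rw [h] at this
    exact Nat.dvd_one.1 this

end Pool.Agent.Results.MP_537c9d_co.OneAtEnd
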